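import Mathlib

/-!
Vanishing of `Ext` groups and dimension shifting.
-/

set_option autoImplicit false
set_option linter.unusedSectionVars false

open CategoryTheory CategoryTheory.Abelian

namespace Pool.Agent.Helper6K1.ZR

noncomputable section

variable (A : Type) [Ring A] (M : Type) [AddCommGroup M] [Module A M]

/-- `Ext^p(X, M) = 0` -/
def V (p : ℕ) (X : Type) [AddCommGroup X] [Module A X] : Prop :=
  ∀ e : Ext (ModuleCat.of A X) (ModuleCat.of A M) p, e = 0

variable {A}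

lemma v_zero_iff {X : Type} [AddCommGroup X] [Module A X] :
    V A M 0 X ↔ ∀ f : X →ₗ[A] M, f = 0 := by
  constructor
  · intro h f
    have h1 := h (Ext.mk₀ (ModuleCat.ofHom f))
    have h2 : Ext.addEquiv₀ (Ext.mk₀ (ModuleCat.ofHom f)) = ModuleCat.ofHom f :=
      Ext.addEquiv₀.right_inv _
    rw [h1, map_zero] at h2
    exact (congrArg ModuleCat.Hom.hom h2).symm
  · intro h e
    obtain ⟨f, rfl⟩ := Ext.addEquiv₀.symm.surjective e
    have h1 : f = 0 := ModuleCat.hom_ext (h f.hom)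
    rw [h1, map_zero]

variable {X₁ X₂ X₃ : Type} [AddCommGroup X₁] [Module A X₁] [AddCommGroup X₂] [Module A X₂]
  [AddCommGroup X₃] [Module A X₃] (i : X₁ →ₗ[A] X₂) (π : X₂ →ₗ[A] X₃)
  (hi : Function.Injective i) (hπ : Function.Surjective π) (hex : Function.Exact i π)

include hex in
lemma exact_comp : π.comp i = 0 := by
  refine LinearMap.ext fun x => ?_
  exact (hex (i x)).2 ⟨x, rfl⟩

/-- the short exact sequence -/
abbrev seq : ShortComplex (ModuleCat.{0} A) :=
  ShortComplex.mk (ModuleCat.ofHom i) (ModuleCat.ofHom π)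
    (ModuleCat.hom_ext (exact_comp i π hex))

include hi hπ in
lemma seq_shortExact : (seq i π hex).ShortExact :=
  ModuleCat.shortComplex_shortExact _ hex hi hπ

include hi hπ hex

lemma v_ext (p : ℕ) (h1 : V A M p X₁) (h3 : V A M p X₃) : V A M p X₂ := by
  intro e
  obtain ⟨x, hx⟩ := Ext.contravariant_sequence_exact₂ (seq_shortExact i π hi hπ hex)
    (ModuleCat.of A M) e (h1 _)
  rw [← hx, show x = 0 from h3 x, Ext.comp_zero]
  try rfl

lemma v_succ [Module.Projective A X₂] (p : ℕ) (h : V A M (p + 2) X₃) : V A M (p + 1) X₁ := by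
  intro e
  obtain ⟨x, hx⟩ := Ext.contravariant_sequence_exact₁ (seq_shortExact i π hi hπ hex)
    (ModuleCat.of A M) e (n₁ := p + 2) (by omega) (h _)
  have : Projective (seq i π hex).X₂ := (IsProjective.iff_projective X₂).1 inferInstance
  rw [← hx, Ext.eq_zero_of_projective x, Ext.comp_zero]
  try rfl

lemma v_extend (h : V A M 1 X₃) (f : X₁ →ₗ[A] M) : ∃ g : X₂ →ₗ[A] M, g ∘ₗ i = f := by
  obtain ⟨x, hx⟩ := Ext.contravariant_sequence_exact₁ (seq_shortExact i π hi hπ hex)
    (ModuleCat.of A M) (Ext.mk₀ (ModuleCat.ofHom f) : Ext (seq i π hex).X₁ (ModuleCat.of A M) 0)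
    (n₁ := 1) (by omega) (h _)
  obtain ⟨g, rfl⟩ := Ext.addEquiv₀.symm.surjective x
  refine ⟨g.hom, ?_⟩
  have h1 : Ext.mk₀ ((seq i π hex).f ≫ g) = Ext.mk₀ (ModuleCat.ofHom f) := by
    rw [← hx, ← Ext.mk₀_comp_mk₀]
    rfl
  have h2 := (Ext.mk₀_bijective _ _).1 h1
  exact congrArg ModuleCat.Hom.hom h2

lemma v_pred [Module.Projective A X₂] (p : ℕ) (h : V A M (p + 1) X₁) : V A M (p + 2) X₃ := by
  intro e
  have : Projective (seq i π hex).X₂ := (IsProjective.iff_projective X₂).1 inferInstance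
  obtain ⟨x, hx⟩ := Ext.contravariant_sequence_exact₃ (seq_shortExact i π hi hπ hex)
    (ModuleCat.of A M) e (Ext.eq_zero_of_projective _) (n₀ := p + 1) (by omega)
  rw [← hx, show x = 0 from h x, Ext.comp_zero]
  try rfl

lemma v_one [Module.Projective A X₂] (h : ∀ f : X₁ →ₗ[A] M, ∃ g : X₂ →ₗ[A] M, g ∘ₗ i = f) :
    V A M 1 X₃ := by
  intro e
  have : Projective (seq i π hex).X₂ := (IsProjective.iff_projective X₂).1 inferInstance
  obtain ⟨x, hx⟩ := Ext.contravariant_sequence_exact₃ (seq_shortExact i π hi hπ hex)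
    (ModuleCat.of A M) e (Ext.eq_zero_of_projective _) (n₀ := 0) (by omega)
  obtain ⟨f, rfl⟩ := Ext.addEquiv₀.symm.surjective x
  obtain ⟨g, hg⟩ := h f.hom
  have h1 : (seq i π hex).f ≫ ModuleCat.ofHom g = f := ModuleCat.hom_ext hg
  have h2 : (Ext.addEquiv₀.symm f : Ext (seq i π hex).X₁ (ModuleCat.of A M) 0) = Ext.mk₀ f := rfl
  rw [← hx, h2, ← h1, ← Ext.mk₀_comp_mk₀]
  exact (seq_shortExact i π hi hπ hex).extClass_comp_assoc _

end

end Pool.Agent.Helper6K1.ZR
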