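import Pool.Agent.Helper6K1.ZR.Ext1

/-!
Complexes of projective modules: coboundaries from the vanishing of `Ext` groups of the homology.
-/

set_option autoImplicit false
set_option linter.unusedSectionVars false

namespace Pool.Agent.Helper6K1.ZR

noncomputable section

variable {A : Type} [Ring A] (M : Type) [AddCommGroup M] [Module A M]

section complex

variable {D : ℕ → Type} [∀ n, AddCommGroup (D n)] [∀ n, Module A (D n)]
  (d : ∀ n, D (n + 1) →ₗ[A] D n) (hdd : ∀ n x, d n (d (n + 1) x) = 0)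

/-- the cokernels -/
abbrev Cok (n : ℕ) : Type := D n ⧸ LinearMap.range (d n)

/-- the induced map on the cokernel -/
def dbar (n : ℕ) : Cok d (n + 1) →ₗ[A] D n :=
  (LinearMap.range (d (n + 1))).liftQ (d n) (by
    rintro _ ⟨x, rfl⟩
    exact hdd n x)

lemma dbar_mk (n : ℕ) (x : D (n + 1)) :
    dbar d hdd n (Submodule.Quotient.mk x) = d n x := rfl

variable [∀ n, Module.Projective A (D n)] (t : ℕ)
  (h0 : 0 < t → V A M t (Cok d 0))
  (hs : ∀ s, s + 1 < t → V A M (t - (s + 1)) (LinearMap.ker (dbar d hdd s)))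

include h0 hs in
lemma v_cok : ∀ j, j < t → V A M (t - j) (Cok d j) := by
  intro j
  induction j with
  | zero => exact fun h => h0 h
  | succ j ih =>
    intro hj
    have h1 := ih (by omega)
    obtain ⟨p, hp⟩ : ∃ p, t - (j + 1) = p + 1 := ⟨t - (j + 1) - 1, by omega⟩
    have hp2 : t - j = p + 2 := by omega
    have h2 : V A M (p + 1) (LinearMap.range (d j)) := by
      refine v_succ M (LinearMap.range (d j)).subtype (LinearMap.range (d j)).mkQ
        Subtype.val_injective (Submodule.mkQ_surjective _) ?_ p ?_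
      · intro x
        rw [Submodule.mkQ_apply, Submodule.Quotient.mk_eq_zero]
        constructor
        · intro h
          exact ⟨⟨x, h⟩, rfl⟩
        · rintro ⟨y, rfl⟩
          exact y.2
      · rw [← hp2]
        exact h1
    have hmem : ∀ x, dbar d hdd j x ∈ LinearMap.range (d j) := by
      intro x
      obtain ⟨y, rfl⟩ := Submodule.Quotient.mk_surjective _ x
      exact ⟨y, rfl⟩
    rw [hp]
    refine v_ext M (LinearMap.ker (dbar d hdd j)).subtype
      (LinearMap.codRestrict (LinearMap.range (d j)) (dbar d hdd j) hmem)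
      Subtype.val_injective ?_ ?_ (p + 1) ?_ h2
    · rintro ⟨_, y, rfl⟩
      exact ⟨Submodule.Quotient.mk y, Subtype.ext rfl⟩
    · intro x
      constructor
      · intro h
        exact ⟨⟨x, congrArg Subtype.val h⟩, rfl⟩
      · rintro ⟨y, rfl⟩
        exact Subtype.ext y.2
    · rw [← hp]
      exact hs j hj

end complex

/-- cocycles which vanish on the cycles are coboundaries -/
theorem cocycle_ext {D : ℕ → Type} [∀ n, AddCommGroup (D n)] [∀ n, Module A (D n)]
    (d : ∀ n, D (n + 1) →ₗ[A] D n) (hdd : ∀ n x, d n (d (n + 1) x) = 0)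
    [∀ n, Module.Projective A (D n)] (u : ℕ)
    (h0 : V A M (u + 1) (Cok d 0))
    (hs : ∀ s, s < u → V A M (u - s) (LinearMap.ker (dbar d hdd s)))
    (f : D (u + 1) →ₗ[A] M) (hf : ∀ z, d u z = 0 → f z = 0) :
    ∃ g : D u →ₗ[A] M, g ∘ₗ d u = f := by
  have h1 : V A M 1 (Cok d u) := by
    have := v_cok M d hdd (u + 1) (fun _ => h0) (fun s hs' => by
      have h2 := hs s (by omega)
      rw [show u + 1 - (s + 1) = u - s by omega]
      exact h2) u (by omega)
    rwa [show u + 1 - u = 1 by omega] at this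
  let f' : LinearMap.range (d u) →ₗ[A] M :=
    ((LinearMap.ker (d u)).liftQ f hf) ∘ₗ (d u).quotKerEquivRange.symm.toLinearMap
  have hf' : ∀ x, f' ⟨d u x, x, rfl⟩ = f x := by
    intro x
    have h2 : (d u).quotKerEquivRange.symm ⟨d u x, x, rfl⟩ = Submodule.Quotient.mk x := by
      rw [LinearEquiv.symm_apply_eq]
      rfl
    change ((LinearMap.ker (d u)).liftQ f hf) ((d u).quotKerEquivRange.symm ⟨d u x, x, rfl⟩) = _
    rw [h2]
    rfl
  obtain ⟨g, hg⟩ := v_extend M (LinearMap.range (d u)).subtype (LinearMap.range (d u)).mkQ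
    Subtype.val_injective (Submodule.mkQ_surjective _) (by
      intro x
      rw [Submodule.mkQ_apply, Submodule.Quotient.mk_eq_zero]
      constructor
      · intro h
        exact ⟨⟨x, h⟩, rfl⟩
      · rintro ⟨y, rfl⟩
        exact y.2) h1 f'
  refine ⟨g, LinearMap.ext fun x => ?_⟩
  rw [← hf' x, ← hg]
  rfl

/-- the resolution lemma -/
theorem v_res (p : ℕ) : ∀ (P : ℕ → Type) [∀ n, AddCommGroup (P n)] [∀ n, Module A (P n)]
    (e : ∀ n, P (n + 1) →ₗ[A] P n) [∀ n, Module.Projective A (P n)]
    (H : Type) [AddCommGroup H] [Module A H] (ε : P 0 →ₗ[A] H),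
    Function.Surjective ε → (∀ x, ε x = 0 ↔ ∃ y, e 0 y = x) →
    (∀ n x, e n x = 0 ↔ ∃ y, e (n + 1) y = x) →
    (match p with
      | 0 => ∀ f : P 0 →ₗ[A] M, f ∘ₗ e 0 = 0 → f = 0
      | p + 1 => ∀ f : P (p + 1) →ₗ[A] M, f ∘ₗ e (p + 1) = 0 → ∃ g : P p →ₗ[A] M, g ∘ₗ e p = f) →
    V A M p H := by
  induction p with
  | zero =>
    intro P _ _ e _ H _ _ ε hε hex hee hM
    rw [v_zero_iff]
    intro f
    have h1 := hM (f ∘ₗ ε) (LinearMap.ext fun x => by
      rw [LinearMap.comp_apply, LinearMap.comp_apply, (hex _).2 ⟨x, rfl⟩, map_zero]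
      rfl)
    refine LinearMap.ext fun x => ?_
    obtain ⟨y, rfl⟩ := hε x
    exact LinearMap.congr_fun h1 y
  | succ p ih =>
    intro P _ _ e _ H _ _ ε hε hex hee hM
    let Z := LinearMap.ker ε
    have hmem : ∀ x, e 0 x ∈ Z := fun x => (hex _).2 ⟨x, rfl⟩
    let ε' : P 1 →ₗ[A] Z := LinearMap.codRestrict Z (e 0) hmem
    have hε' : Function.Surjective ε' := by
      rintro ⟨x, hx⟩
      obtain ⟨y, rfl⟩ := (hex x).1 hx
      exact ⟨y, rfl⟩
    have hexZ : Function.Exact Z.subtype ε := by
      intro x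
      constructor
      · intro h
        exact ⟨⟨x, h⟩, rfl⟩
      · rintro ⟨y, rfl⟩
        exact y.2
    cases p with
    | zero =>
      refine v_one M Z.subtype ε Subtype.val_injective hε hexZ fun f => ?_
      obtain ⟨g, hg⟩ := hM (f ∘ₗ ε') (LinearMap.ext fun x => by
        rw [LinearMap.comp_apply, LinearMap.comp_apply]
        have : ε' (e 1 x) = 0 := Subtype.ext ((hee 0 _).2 ⟨x, rfl⟩)
        rw [this, map_zero]
        rfl)
      refine ⟨g, LinearMap.ext fun z => ?_⟩
      obtain ⟨y, rfl⟩ := hε' z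
      exact LinearMap.congr_fun hg y
    | succ p =>
      refine v_pred M Z.subtype ε Subtype.val_injective hε hexZ p ?_
      refine ih (fun n => P (n + 1)) (fun n => e (n + 1)) Z ε' hε' ?_ (fun n => hee (n + 1)) hM
      intro x
      rw [← hee 0 x]
      constructor
      · intro h
        exact congrArg Subtype.val h
      · intro h
        exact Subtype.ext h

end

end Pool.Agent.Helper6K1.ZR
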