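import Pool.Agent.Helper6K1.ZR.Ext2

/-!
Trivial and nilpotent modules.
-/

set_option autoImplicit false
set_option linter.unusedSectionVars false

open CategoryTheory CategoryTheory.Abelian MonoidAlgebra

namespace Pool.Agent.Helper6K1.ZR

noncomputable section

/-- the zero module -/
lemma v_subsingleton {A : Type} [Ring A] (M : Type) [AddCommGroup M] [Module A M] (p : ℕ)
    (H : Type) [AddCommGroup H] [Module A H] [Subsingleton H] : V A M p H := by
  intro e
  have h1 : (𝟙 (ModuleCat.of A H)) = 0 := ModuleCat.hom_ext (LinearMap.ext fun x =>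
    Subsingleton.elim _ _)
  have h2 : (Ext.mk₀ (𝟙 (ModuleCat.of A H))).comp e (zero_add p) = e := Ext.mk₀_id_comp e
  rw [← h2, h1, Ext.mk₀_zero, Ext.zero_comp]

section finsupp

variable {A : Type} [Ring A] {X Y : Type} [AddCommGroup X] [Module A X] [AddCommGroup Y]
  [Module A Y] (I : Type)

lemma finsupp_surj (e : X →ₗ[A] Y) (x : I →₀ Y) (h : ∀ i, ∃ y, e y = x i) :
    ∃ y : I →₀ X, Finsupp.mapRange.linearMap e y = x := by
  classical
  let s : Y → X := fun w => if hw : w ≠ 0 ∧ ∃ y, e y = w then hw.2.choose else 0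
  have hs0 : s 0 = 0 := dif_neg fun h => h.1 rfl
  have hs : ∀ w, (∃ y, e y = w) → e (s w) = w := by
    intro w hw
    by_cases h0 : w = 0
    · rw [h0, hs0, map_zero]
    · have : s w = (show w ≠ 0 ∧ ∃ y, e y = w from ⟨h0, hw⟩).2.choose := dif_pos ⟨h0, hw⟩
      rw [this]
      exact (show w ≠ 0 ∧ ∃ y, e y = w from ⟨h0, hw⟩).2.choose_spec
  refine ⟨x.mapRange s hs0, Finsupp.ext fun i => ?_⟩
  rw [Finsupp.mapRange.linearMap_apply, Finsupp.mapRange_apply, Finsupp.mapRange_apply]
  exact hs _ (h i)

end finsupp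

section group

variable {K : Type} [Group K] (M : Type) [AddCommGroup M] [Module (MonoidAlgebra ℚ K) M]
  (W : ℕ → Type) [∀ n, AddCommGroup (W n)] [∀ n, Module (MonoidAlgebra ℚ K) (W n)]
  [∀ n, Module.Projective (MonoidAlgebra ℚ K) (W n)]
  (e : ∀ n, W (n + 1) →ₗ[MonoidAlgebra ℚ K] W n) (ε : W 0 →+ ℚ)
  (hε : ∀ (g : K) (c : ℚ) x, ε ((single g c : MonoidAlgebra ℚ K) • x) = c * ε x)
  (hε1 : ∃ x, ε x = 1) (hex : ∀ x, ε x = 0 ↔ ∃ y, e 0 y = x)
  (hee : ∀ n x, e n x = 0 ↔ ∃ y, e (n + 1) y = x) (p : ℕ)
  (hM : match p with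
      | 0 => ∀ f : W 0 →ₗ[MonoidAlgebra ℚ K] M, f ∘ₗ e 0 = 0 → f = 0
      | p + 1 => ∀ f : W (p + 1) →ₗ[MonoidAlgebra ℚ K] M, f ∘ₗ e (p + 1) = 0 →
        ∃ g : W p →ₗ[MonoidAlgebra ℚ K] M, g ∘ₗ e p = f)

include hε hε1 hex hee hM

/-- trivial modules -/
theorem v_triv (H : Type) [AddCommGroup H] [Module (MonoidAlgebra ℚ K) H]
    (hH : ∀ (g : K) (h : H), (single g (1 : ℚ) : MonoidAlgebra ℚ K) • h = h) :
    V (MonoidAlgebra ℚ K) M p H := by
  classical
  let : Module ℚ H := Module.compHom H (algebraMap ℚ (MonoidAlgebra ℚ K))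
  have hq : ∀ (c : ℚ) (h : H), c • h = (algebraMap ℚ (MonoidAlgebra ℚ K) c) • h :=
    fun c h => rfl
  have hsm : ∀ (g : K) (c : ℚ) (h : H), (single g c : MonoidAlgebra ℚ K) • h = c • h := by
    intro g c h
    have h1 : (single g c : MonoidAlgebra ℚ K) = algebraMap ℚ _ c * single g 1 := by
      rw [← Algebra.smul_def, smul_single, smul_eq_mul, mul_one]
    rw [h1, mul_smul, hH, ← hq]
  let b := Module.Basis.ofVectorSpace ℚ H
  let I := Module.Basis.ofVectorSpaceIndex ℚ H
  -- the map to a trivial module
  let tr : H → (W 0 →ₗ[MonoidAlgebra ℚ K] H) := fun h =>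
    { toFun := fun w => ε w • h
      map_add' := fun x y => by rw [map_add, add_smul]
      map_smul' := fun a w => by
        rw [RingHom.id_apply]
        refine induction_linear a ?_ ?_ ?_
        · rw [zero_smul, zero_smul, map_zero, zero_smul]
        · intro x y hx hy
          rw [add_smul, map_add, add_smul, add_smul, hx, hy]
        · intro g c
          rw [hε, hsm, mul_smul] }
  have htr : ∀ h w, tr h w = ε w • h := fun h w => rfl
  let π : (I →₀ W 0) →ₗ[MonoidAlgebra ℚ K] H := Finsupp.lsum ℕ fun i => tr (b i)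
  have hπ : ∀ x, π x = ∑ i ∈ x.support, ε (x i) • b i := fun x => rfl
  have hπ2 : ∀ x : I →₀ W 0, π x =
      Finsupp.linearCombination ℚ b (x.mapRange ε (map_zero ε)) := by
    intro x
    rw [hπ, Finsupp.linearCombination_apply, Finsupp.sum]
    refine (Finset.sum_subset ?_ ?_).symm
    · exact Finsupp.support_mapRange
    · intro i _ hi
      have h1 := Finsupp.notMem_support_iff.1 hi
      rw [Finsupp.mapRange_apply] at h1
      rw [h1, zero_smul]
  have hπs : Function.Surjective π := by
    intro h
    obtain ⟨w, hw⟩ := hε1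
    have h1 : h ∈ Submodule.span ℚ (Set.range b) := by rw [b.span_eq]; trivial
    induction h1 using Submodule.span_induction with
    | mem x hx =>
      obtain ⟨i, rfl⟩ := hx
      refine ⟨Finsupp.single i w, ?_⟩
      change (Finsupp.lsum ℕ fun i => tr (b i)) (Finsupp.single i w) = b i
      rw [Finsupp.lsum_single, htr, hw, one_smul]
    | zero => exact ⟨0, map_zero π⟩
    | add x y _ _ hx hy =>
      obtain ⟨x', rfl⟩ := hx
      obtain ⟨y', rfl⟩ := hy
      exact ⟨x' + y', map_add π _ _⟩
    | smul c x _ hx =>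
      obtain ⟨x', rfl⟩ := hx
      exact ⟨(algebraMap ℚ (MonoidAlgebra ℚ K) c) • x', map_smul π _ _⟩
  have hπ0 : ∀ x, π x = 0 ↔ ∃ y, Finsupp.mapRange.linearMap (e 0) y = x := by
    intro x
    constructor
    · intro hx
      refine finsupp_surj I (e 0) x fun i => (hex _).1 ?_
      rw [hπ2] at hx
      have h1 := linearIndependent_iff.1 b.linearIndependent _ hx
      have h2 := DFunLike.congr_fun h1 i
      rwa [Finsupp.mapRange_apply] at h2
    · rintro ⟨y, rfl⟩
      rw [hπ]
      refine Finset.sum_eq_zero fun i _ => ?_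
      rw [Finsupp.mapRange.linearMap_apply, Finsupp.mapRange_apply, (hex _).2 ⟨y i, rfl⟩,
        zero_smul]
  have : ∀ n, Module.Projective (MonoidAlgebra ℚ K) (I →₀ W n) := fun n =>
    Module.Projective.of_equiv (finsuppLequivDFinsupp (MonoidAlgebra ℚ K)).symm
  refine v_res M p (fun n => I →₀ W n) (fun n => Finsupp.mapRange.linearMap (e n)) H π hπs hπ0
    ?_ ?_
  · intro n x
    constructor
    · intro hx
      refine finsupp_surj I (e (n + 1)) x fun i => (hee n _).1 ?_
      have h2 := DFunLike.congr_fun hx i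
      rwa [Finsupp.mapRange.linearMap_apply, Finsupp.mapRange_apply] at h2
    · rintro ⟨y, rfl⟩
      refine Finsupp.ext fun i => ?_
      rw [Finsupp.mapRange.linearMap_apply, Finsupp.mapRange_apply,
        Finsupp.mapRange.linearMap_apply, Finsupp.mapRange_apply]
      exact (hee n _).2 ⟨y i, rfl⟩
  · cases p with
    | zero =>
      intro f hf
      refine Finsupp.lhom_ext' fun i => ?_
      rw [LinearMap.zero_comp]
      refine hM _ (LinearMap.ext fun x => ?_)
      have h1 := LinearMap.congr_fun hf (Finsupp.single i x)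
      rw [LinearMap.comp_apply, Finsupp.mapRange.linearMap_apply, Finsupp.mapRange_single] at h1
      exact h1
    | succ p =>
      intro f hf
      have h1 : ∀ i, ∃ g : W p →ₗ[MonoidAlgebra ℚ K] M,
          g ∘ₗ e p = f ∘ₗ Finsupp.lsingle i := by
        intro i
        refine hM _ (LinearMap.ext fun x => ?_)
        have h1 := LinearMap.congr_fun hf (Finsupp.single i x)
        rw [LinearMap.comp_apply, Finsupp.mapRange.linearMap_apply, Finsupp.mapRange_single] at h1
        exact h1
      choose g hg using h1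
      refine ⟨Finsupp.lsum ℕ g, Finsupp.lhom_ext' fun i => ?_⟩
      rw [← hg i]
      refine LinearMap.ext fun x => ?_
      rw [LinearMap.comp_apply, LinearMap.comp_apply, Finsupp.lsingle_apply,
        Finsupp.mapRange.linearMap_apply, Finsupp.mapRange_single]
      exact Finsupp.lsum_single _ _ _ _

omit [∀ n, Module.Projective (MonoidAlgebra ℚ K) (W n)] hε hε1 hex hee hM in
lemma prod_conj (l : List K) (g : K) :
    (l.map fun k => (single k (1 : ℚ) - 1 : MonoidAlgebra ℚ K)).prod * single g 1 =
      single g 1 * ((l.map fun k => g⁻¹ * k * g).map fun k =>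
        (single k (1 : ℚ) - 1 : MonoidAlgebra ℚ K)).prod := by
  induction l with
  | nil => simp
  | cons k l ih =>
    rw [List.map_cons, List.prod_cons, List.map_cons, List.map_cons, List.prod_cons, mul_assoc, ih,
      ← mul_assoc, ← mul_assoc]
    congr 1
    rw [sub_mul, mul_sub, one_mul, mul_one, single_mul_single, single_mul_single]
    congr 2
    group

/-- nilpotent modules -/
theorem v_nil (c : ℕ) : ∀ (H : Type) [AddCommGroup H] [Module (MonoidAlgebra ℚ K) H],
    (∀ l : List K, l.length = c → ∀ h : H,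
      (l.map fun k => (single k (1 : ℚ) - 1 : MonoidAlgebra ℚ K)).prod • h = 0) →
    V (MonoidAlgebra ℚ K) M p H := by
  induction c with
  | zero =>
    intro H _ _ hH
    have : Subsingleton H := ⟨fun a b => by
      have h1 := hH [] rfl (a - b)
      rw [List.map_nil, List.prod_nil, one_smul, sub_eq_zero] at h1
      exact h1⟩
    exact v_subsingleton M p H
  | succ c ih =>
    intro H _ _ hH
    let S : Submodule (MonoidAlgebra ℚ K) H :=
      { carrier := {h | ∀ l : List K, l.length = c →
          (l.map fun k => (single k (1 : ℚ) - 1 : MonoidAlgebra ℚ K)).prod • h = 0}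
        add_mem' := fun {a b} ha hb l hl => by rw [smul_add, ha l hl, hb l hl, add_zero]
        zero_mem' := fun l hl => smul_zero _
        smul_mem' := fun a x hx => by
          refine induction_linear a ?_ ?_ ?_
          · intro l _
            rw [zero_smul, smul_zero]
          · intro y z hy hz l hl
            rw [add_smul, smul_add, hy l hl, hz l hl, add_zero]
          · intro g r l hl
            have h1 : (single g r : MonoidAlgebra ℚ K) = algebraMap ℚ _ r * single g 1 := by
              rw [← Algebra.smul_def, smul_single, smul_eq_mul, mul_one]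
            rw [h1, smul_smul, ← mul_assoc, ← Algebra.commutes, mul_assoc, prod_conj, ← mul_assoc,
              mul_smul, hx _ (by rw [List.length_map, hl]), smul_zero] }
    have hgS : ∀ (g : K) (h : H), (single g (1 : ℚ) - 1 : MonoidAlgebra ℚ K) • h ∈ S := by
      intro g h l hl
      have h1 := hH (l ++ [g]) (by rw [List.length_append, hl]; rfl) h
      rw [List.map_append, List.prod_append, List.map_singleton, List.prod_singleton,
        mul_smul] at h1
      exact h1
    refine v_ext M S.subtype S.mkQ Subtype.val_injective (Submodule.mkQ_surjective _) ?_ p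
      (ih S fun l hl h => Subtype.ext (h.2 l hl)) ?_
    · intro x
      rw [Submodule.mkQ_apply, Submodule.Quotient.mk_eq_zero]
      constructor
      · intro h
        exact ⟨⟨x, h⟩, rfl⟩
      · rintro ⟨y, rfl⟩
        exact y.2
    · refine v_triv M W e ε hε hε1 hex hee p hM (H ⧸ S) fun g h => ?_
      obtain ⟨x, rfl⟩ := Submodule.Quotient.mk_surjective _ h
      rw [← Submodule.Quotient.mk_smul, Submodule.Quotient.eq]
      have h1 := hgS g x
      rwa [sub_smul, one_smul] at h1

end group

end

end Pool.Agent.Helper6K1.ZR
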