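import Pool.Agent.Helper6K1.ZP.Rel

/-!
Exactness of equivariant cochains of complexes with nilpotent homology: the statement.
-/

set_option autoImplicit false
set_option linter.unusedSectionVars false

namespace Pool.Agent.Helper6K1.ZR

open LinearMap Pool.Agent.Helper6K1.ZP

noncomputable section

variable {k : Type} [CommRing k] {K : Type} [Group K]
  {D : ℕ → Type} [∀ n, AddCommGroup (D n)] [∀ n, Module k (D n)]
  (σ : ∀ n, Representation k K (D n)) (d : ∀ n, D (n + 1) →ₗ[k] D n)

/-- the cycles -/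
def Cyc : ∀ n, D n → Prop
  | 0, _ => True
  | n + 1, x => d n x = 0

/-- the products of `c` elements `g - 1` kill the homology in degree `s` -/
def Nil (s c : ℕ) : Prop :=
  ∀ l : List K, l.length = c → ∀ z : D s, Cyc d s z →
    ∃ y, d s y = (l.map fun g => σ s g - 1).prod z

/-- Let `W` be a projective resolution of the trivial representation such that the complex of
equivariant cochains of `W` with values in `M` is exact in degrees less than `m`. Let `D` be a complex of
projective representations whose homology is nilpotent in degrees less than `t`, and zero in degrees at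
most `t - m`, and such that every equivariant cocycle on `D t` with values in `M` vanishes on the
cycles. Then every equivariant cocycle on `D t` is a coboundary. -/
def NilExact : Prop :=
  ∀ (K : Type) (_ : Group K) (W : ℕ → Type) (_ : ∀ n, AddCommGroup (W n))
    (_ : ∀ n, Module ℚ (W n)) (ω : ∀ n, Representation ℚ K (W n))
    (e : ∀ n, W (n + 1) →ₗ[ℚ] W n) (ε : W 0 →ₗ[ℚ] ℚ)
    (D : ℕ → Type) (_ : ∀ n, AddCommGroup (D n)) (_ : ∀ n, Module ℚ (D n))
    (σ : ∀ n, Representation ℚ K (D n)) (d : ∀ n, D (n + 1) →ₗ[ℚ] D n)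
    (M : Type) (_ : AddCommGroup M) (_ : Module ℚ M) (ρ : Representation ℚ K M) (m t : ℕ),
    (∀ n g x, e n (ω (n + 1) g x) = ω n g (e n x)) → (∀ g x, ε (ω 0 g x) = ε x) →
    (∃ x, ε x = 1) → (∀ x, ε x = 0 ↔ ∃ y, e 0 y = x) →
    (∀ n x, e n x = 0 ↔ ∃ y, e (n + 1) y = x) → (∀ n, Proj (ω n)) →
    (∀ p < m, CoEx ω e ρ Set.univ p) →
    (∀ n g x, d n (σ (n + 1) g x) = σ n g (d n x)) → (∀ n x, d n (d (n + 1) x) = 0) →
    (∀ n, Proj (σ n)) →
    (∀ s < t, ∃ c, Nil σ d s c ∧ (c = 0 ∨ t - s < m)) →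
    (∀ f : D t →ₗ[ℚ] M, Eqv Set.univ (σ t) ρ f → f ∘ₗ d t = 0 → ∀ z, Cyc d t z → f z = 0) →
    CoEx σ d ρ Set.univ t

end

end Pool.Agent.Helper6K1.ZR
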