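import Pool.Agent.Helper6K1.ZR.Ext3
import Pool.Agent.Helper6K1.ZR.Stm
import Pool.Agent.Helper6K1.ZP.Free

/-!
Exactness of equivariant cochains of complexes with nilpotent homology: the proof.
-/

set_option autoImplicit false
set_option linter.unusedSectionVars false

open MonoidAlgebra Pool.Agent.Helper6K1.ZP

namespace Pool.Agent.Helper6K1.ZR

noncomputable section

variable {K : Type} [Group K]

/-- the module over the group algebra -/
abbrev modA {V : Type} [AddCommGroup V] [Module ℚ V] (σ : Representation ℚ K V) :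
    Module (MonoidAlgebra ℚ K) V :=
  Module.compHom V ((MonoidAlgebra.lift ℚ (Module.End ℚ V) K σ : MonoidAlgebra ℚ K →ₐ[ℚ]
    Module.End ℚ V) : MonoidAlgebra ℚ K →+* Module.End ℚ V)

section two

variable {V V' : Type} [AddCommGroup V] [Module ℚ V] [AddCommGroup V'] [Module ℚ V']
  (σ : Representation ℚ K V) (σ' : Representation ℚ K V')

lemma modA_single (g : K) (c : ℚ) (x : V) :
    letI := modA σ
    (single g c : MonoidAlgebra ℚ K) • x = c • σ g x := by
  change (MonoidAlgebra.lift ℚ (Module.End ℚ V) K σ) (single g c) x = _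
  rw [MonoidAlgebra.lift_single]
  rfl

lemma modA_algebraMap (c : ℚ) (x : V) :
    letI := modA σ
    (algebraMap ℚ (MonoidAlgebra ℚ K) c) • x = c • x := by
  change (MonoidAlgebra.lift ℚ (Module.End ℚ V) K σ) (algebraMap ℚ _ c) x = _
  rw [AlgHom.commutes]
  rfl

lemma modA_prod (l : List K) (x : V) :
    letI := modA σ
    (l.map fun k => (single k (1 : ℚ) - 1 : MonoidAlgebra ℚ K)).prod • x =
      (l.map fun g => σ g - 1).prod x := by
  change (MonoidAlgebra.lift ℚ (Module.End ℚ V) K σ) _ x = _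
  rw [map_list_prod, List.map_map]
  congr 2
  refine List.map_congr_left fun g _ => ?_
  rw [Function.comp_apply, map_sub, map_one, MonoidAlgebra.lift_single, one_smul]

/-- equivariant maps are linear over the group algebra -/
def toA (f : V →ₗ[ℚ] V') (hf : ∀ g x, f (σ g x) = σ' g (f x)) :
    letI := modA σ
    letI := modA σ'
    V →ₗ[MonoidAlgebra ℚ K] V' :=
  letI := modA σ
  letI := modA σ'
  { toFun := f
    map_add' := map_add f
    map_smul' := fun a x => by
      rw [RingHom.id_apply]
      refine induction_linear a ?_ ?_ ?_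
      · rw [zero_smul, zero_smul, map_zero]
      · intro y z hy hz
        rw [add_smul, add_smul, map_add, hy, hz]
      · intro g c
        rw [modA_single, modA_single, map_smul, hf] }

/-- linear maps over the group algebra are equivariant -/
def ofA (f : letI := modA σ
      letI := modA σ'
      V →ₗ[MonoidAlgebra ℚ K] V') : V →ₗ[ℚ] V' :=
  letI := modA σ
  letI := modA σ'
  { toFun := f
    map_add' := map_add f
    map_smul' := fun c x => by
      rw [RingHom.id_apply, ← modA_algebraMap σ, ← modA_algebraMap σ', map_smul] }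

lemma ofA_apply (f : letI := modA σ
      letI := modA σ'
      V →ₗ[MonoidAlgebra ℚ K] V') (x : V) : ofA σ σ' f x = f x := rfl

lemma ofA_eqv (f : letI := modA σ
      letI := modA σ'
      V →ₗ[MonoidAlgebra ℚ K] V') (g : K) (x : V) :
    ofA σ σ' f (σ g x) = σ' g (ofA σ σ' f x) := by
  letI := modA σ
  letI := modA σ'
  have h1 : σ g x = (single g (1 : ℚ) : MonoidAlgebra ℚ K) • x := by
    rw [modA_single, one_smul]
  have h2 : σ' g (f x) = (single g (1 : ℚ) : MonoidAlgebra ℚ K) • f x := by
    rw [modA_single, one_smul]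
  rw [ofA_apply, ofA_apply, h1, h2, map_smul]

lemma proj_modA (h : Proj σ) :
    letI := modA σ
    Module.Projective (MonoidAlgebra ℚ K) V := by
  letI := modA σ
  refine Module.Projective.of_lifting_property fun {X Y} _ _ _ _ f g hf => ?_
  let : Module ℚ X := Module.compHom X (algebraMap ℚ (MonoidAlgebra ℚ K))
  let : Module ℚ Y := Module.compHom Y (algebraMap ℚ (MonoidAlgebra ℚ K))
  have hX : IsScalarTower ℚ (MonoidAlgebra ℚ K) X := ⟨fun c a x => by
    rw [Algebra.smul_def, mul_smul]
    rfl⟩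
  have hY : IsScalarTower ℚ (MonoidAlgebra ℚ K) Y := ⟨fun c a x => by
    rw [Algebra.smul_def, mul_smul]
    rfl⟩
  let f' : X →ₗ[ℚ] Y :=
    { toFun := f
      map_add' := map_add f
      map_smul' := fun c x => map_smul f (algebraMap ℚ (MonoidAlgebra ℚ K) c) x }
  let g' : V →ₗ[ℚ] Y :=
    { toFun := g
      map_add' := map_add g
      map_smul' := fun c x => by
        rw [RingHom.id_apply, ← modA_algebraMap σ, map_smul]
        rfl }
  obtain ⟨u, hu, hu2⟩ := h X Y _ _ _ _ (lm X) (lm Y) f' (fun k x => map_smul f _ x) g'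
    (fun k x => by
      have h1 : σ k x = (single k (1 : ℚ) : MonoidAlgebra ℚ K) • x := by
        rw [modA_single, one_smul]
      rw [h1]
      exact map_smul g _ x) (fun x => hf _)
  refine ⟨{ toFun := u, map_add' := map_add u, map_smul' := fun a x => ?_ },
    LinearMap.ext fun x => hu2 x⟩
  rw [RingHom.id_apply]
  refine induction_linear a ?_ ?_ ?_
  · rw [zero_smul, zero_smul, map_zero]
  · intro y z hy hz
    rw [add_smul, add_smul, map_add, hy, hz]
  · intro k c
    have h1 : (single k c : MonoidAlgebra ℚ K) = c • single k 1 := by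
      rw [smul_single, smul_eq_mul, mul_one]
    rw [modA_single, map_smul, hu, h1, smul_assoc]
    rfl

end two

theorem t_nilExact : NilExact := by
  intro K _ W _ _ ω e ε D _ _ σ d M _ _ ρ m t he hε hε1 hex hee hWP hM hσ hdd hP hnil htop
  letI : ∀ n, Module (MonoidAlgebra ℚ K) (W n) := fun n => modA (ω n)
  letI : ∀ n, Module (MonoidAlgebra ℚ K) (D n) := fun n => modA (σ n)
  letI : Module (MonoidAlgebra ℚ K) M := modA ρ
  have hWp : ∀ n, Module.Projective (MonoidAlgebra ℚ K) (W n) := fun n => proj_modA (ω n) (hWP n)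
  have hDp : ∀ n, Module.Projective (MonoidAlgebra ℚ K) (D n) := fun n => proj_modA (σ n) (hP n)
  let eA : ∀ n, W (n + 1) →ₗ[MonoidAlgebra ℚ K] W n := fun n =>
    toA (ω (n + 1)) (ω n) (e n) (he n)
  let dA : ∀ n, D (n + 1) →ₗ[MonoidAlgebra ℚ K] D n := fun n =>
    toA (σ (n + 1)) (σ n) (d n) (hσ n)
  have hMA : ∀ p < m, (match p with
      | 0 => ∀ f : W 0 →ₗ[MonoidAlgebra ℚ K] M, f ∘ₗ eA 0 = 0 → f = 0
      | p + 1 => ∀ f : W (p + 1) →ₗ[MonoidAlgebra ℚ K] M, f ∘ₗ eA (p + 1) = 0 →
        ∃ g : W p →ₗ[MonoidAlgebra ℚ K] M, g ∘ₗ eA p = f) := by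
    intro p hp
    cases p with
    | zero =>
      intro f hf
      have h1 := hM 0 hp (ofA (ω 0) ρ f) (fun g _ x => ofA_eqv (ω 0) ρ f g x)
        (LinearMap.ext fun x => LinearMap.congr_fun hf x)
      exact LinearMap.ext fun x => LinearMap.congr_fun h1 x
    | succ p =>
      intro f hf
      obtain ⟨g, hg, hg2⟩ := hM (p + 1) hp (ofA (ω (p + 1)) ρ f)
        (fun g _ x => ofA_eqv (ω (p + 1)) ρ f g x)
        (LinearMap.ext fun x => LinearMap.congr_fun hf x)
      exact ⟨toA (ω p) ρ g (fun k x => hg k (Set.mem_univ k) x),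
        LinearMap.ext fun x => LinearMap.congr_fun hg2 x⟩
  have hεA : ∀ (g : K) (c : ℚ) x, ε.toAddMonoidHom ((single g c : MonoidAlgebra ℚ K) • x) =
      c * ε.toAddMonoidHom x := by
    intro g c x
    rw [modA_single]
    change ε (c • ω 0 g x) = c * ε x
    rw [map_smul, hε, smul_eq_mul]
  have hvn : ∀ (p c : ℕ), (c = 0 ∨ p < m) → ∀ (H : Type) (_ : AddCommGroup H)
      (_ : Module (MonoidAlgebra ℚ K) H), (∀ l : List K, l.length = c → ∀ h : H,
      (l.map fun k => (single k (1 : ℚ) - 1 : MonoidAlgebra ℚ K)).prod • h = 0) →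
      V (MonoidAlgebra ℚ K) M p H := by
    rintro p c (rfl | hp) H _ _ hH
    · have : Subsingleton H := ⟨fun a b => by
        have h1 := hH [] rfl (a - b)
        rw [List.map_nil, List.prod_nil, one_smul, sub_eq_zero] at h1
        exact h1⟩
      exact v_subsingleton M p H
    · exact v_nil M W eA ε.toAddMonoidHom hεA hε1 hex hee p (hMA p hp) c H hH
  intro f hf hfd
  cases t with
  | zero =>
    exact LinearMap.ext fun x => htop f hf hfd x trivial
  | succ u =>
    have h0 : V (MonoidAlgebra ℚ K) M (u + 1) (Cok dA 0) := by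
      obtain ⟨c, hc, hcm⟩ := hnil 0 (Nat.succ_pos u)
      refine hvn (u + 1) c hcm _ _ _ fun l hl h => ?_
      obtain ⟨x, rfl⟩ := Submodule.Quotient.mk_surjective _ h
      obtain ⟨y, hy⟩ := hc l hl x trivial
      rw [← Submodule.Quotient.mk_smul, Submodule.Quotient.mk_eq_zero, modA_prod]
      exact ⟨y, hy⟩
    have hs : ∀ s, s < u → V (MonoidAlgebra ℚ K) M (u - s) (LinearMap.ker (dbar dA hdd s)) := by
      intro s hsu
      obtain ⟨c, hc, hcm⟩ := hnil (s + 1) (by omega)
      refine hvn (u - s) c (by omega) _ _ _ ?_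
      rintro l hl ⟨h, hh⟩
      obtain ⟨x, rfl⟩ := Submodule.Quotient.mk_surjective _ h
      obtain ⟨y, hy⟩ := hc l hl x hh
      refine Subtype.ext ?_
      change (l.map fun k => (single k (1 : ℚ) - 1 : MonoidAlgebra ℚ K)).prod •
        (Submodule.Quotient.mk x : Cok dA (s + 1)) = 0
      rw [← Submodule.Quotient.mk_smul, Submodule.Quotient.mk_eq_zero, modA_prod]
      exact ⟨y, hy⟩
    obtain ⟨g, hg⟩ := cocycle_ext M dA hdd u h0 hs
      (toA (σ (u + 1)) ρ f (fun k x => hf k (Set.mem_univ k) x)) (fun z hz => htop f hf hfd z hz)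
    exact ⟨ofA (σ u) ρ g, fun k _ x => ofA_eqv (σ u) ρ g k x,
      LinearMap.ext fun x => LinearMap.congr_fun hg x⟩

end

end Pool.Agent.Helper6K1.ZR
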