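import Pool.Agent.Helper6K1.ZR.Main
import Pool.Agent.Helper6K1.ZR.Ext4

/-!
Extensions with amenable kernel, nilpotent action of a deep normal subgroup: the conclusion.
-/

set_option autoImplicit false

namespace Pool.Agent.Helper6K1.ZR

open Pool.Agent.H919R4.ZS Pool.Agent.R807.ZK Pool.Agent.Helper6K1.ZM
open Pool.Agent.H496R3.ZS (IsAmenable)

theorem conclusion' {G : Type} [Group G] (N : Subgroup G) [N.Normal] (hN : IsAmenable N)
    (K : Subgroup (G ⧸ N)) [K.Normal] (W : FinRes K) (i : ℕ) (hi : 2 ≤ i)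
    (hW : ∀ p, p + 1 < i → Subsingleton (W.homology (toRed K) p))
    (Y : FinRes (G ⧸ N)) (hY : GoodBase Y i) (X : FinRes G)
    (hnil : ∀ q, 1 ≤ q → q + 1 < i → ∃ c, NilHom N X K q c)
    (hfin : FinDim X (toRat N) (i - 1)) : ∃ j ≤ i, Nontrivial (X.homology (toRed G) j) :=
  conclusion N t_nilExact hN K W i hi hW Y hY X hnil hfin

end Pool.Agent.Helper6K1.ZR
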