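import Pool.Agent.Helper6K1.ZR.Red
import Pool.Agent.Helper6K1.ZM.Base

/-!
Extensions with amenable kernel: a normal subgroup of the quotient acts nilpotently on the homology of
the kernel.
-/

set_option autoImplicit false
set_option linter.unusedSectionVars false

open scoped Matrix

namespace Pool.Agent.Helper6K1.ZR

open Pool.Agent.H919R4.ZS MonoidAlgebra Pool.Agent.TH38.ZT Pool.Agent.R807.ZK
open Pool.Agent.Helper6K1.ZM Pool.Agent.Helper6K1.ZP
open Pool.Agent.H496R3.ZS (IsAmenable)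

noncomputable section

section general

variable {K : Type} [Group K] {V : Type} [AddCommGroup V] [Module ℚ V]
  (ρ : Representation ℚ K V)

/-- no invariants, no unipotent vectors -/
lemma unip (h0 : ∀ m, (∀ g, ρ g m = m) → m = 0) (c : ℕ) : ∀ m : V,
    (∀ l : List K, l.length = c → (l.map fun g => ρ g - 1).prod m = 0) → m = 0 := by
  induction c with
  | zero =>
    intro m h
    exact h [] rfl
  | succ c ih =>
    intro m h
    refine h0 m fun g => ?_
    have h1 : (ρ g - 1) m = 0 := by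
      refine ih _ fun l hl => ?_
      have h2 := h (l ++ [g]) (by rw [List.length_append, hl]; rfl)
      rw [List.map_append, List.prod_append, List.map_singleton, List.prod_singleton,
        Module.End.mul_apply] at h2
      exact h2
    rw [LinearMap.sub_apply, Module.End.one_apply, sub_eq_zero] at h1
    exact h1

lemma prod_comm {V' : Type} [AddCommGroup V'] [Module ℚ V'] (ρ' : Representation ℚ K V')
    (f : V →ₗ[ℚ] V') (hf : ∀ g x, f (ρ g x) = ρ' g (f x)) (l : List K) (x : V) :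
    f ((l.map fun g => ρ g - 1).prod x) = (l.map fun g => ρ' g - 1).prod (f x) := by
  induction l generalizing x with
  | nil => rfl
  | cons g l ih =>
    rw [List.map_cons, List.prod_cons, List.map_cons, List.prod_cons, Module.End.mul_apply,
      Module.End.mul_apply, ← ih, LinearMap.sub_apply, LinearMap.sub_apply, map_sub, hf]
    rfl

end general

section base

variable {K : Type} [Group K]

/-- base change -/
lemma exAt_map {S T : Type} [Ring S] [Ring T] (W : FinRes K) (θ : S →+* T)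
    (φ : MonoidAlgebra ℤ K →+* S) (p : ℕ) (hW : ∀ i ≤ p, ExAt W φ i) :
    ExAt W (θ.comp φ) p := by
  obtain ⟨s, hs0, hs⟩ := contraction' W φ p hW
  have hmap : ∀ i, (W.d i).map (θ.comp φ) = ((W.d i).map φ).map θ := fun i => rfl
  cases p with
  | zero =>
    intro x
    refine ⟨x ᵥ* (s 0).map θ, ?_⟩
    rw [hmap, Matrix.vecMul_vecMul, ← Matrix.map_mul, hs0, Matrix.map_one θ (map_zero θ)
      (map_one θ), Matrix.vecMul_one]
  | succ p =>
    intro x hx
    refine ⟨x ᵥ* (s (p + 1)).map θ, ?_⟩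
    have h1 : ((W.d p).map φ).map θ * (s p).map θ +
        (s (p + 1)).map θ * ((W.d (p + 1)).map φ).map θ = 1 := by
      rw [← Matrix.map_mul, ← Matrix.map_mul, ← Matrix.map_add θ (map_add θ), hs p le_rfl,
        Matrix.map_one θ (map_zero θ) (map_one θ)]
    rw [hmap, Matrix.vecMul_vecMul]
    have h2 : x ᵥ* (((W.d p).map φ).map θ * (s p).map θ) = 0 := by
      rw [← Matrix.vecMul_vecMul, ← hmap, hx, Matrix.zero_vecMul]
    have h3 := congrArg (fun T => x ᵥ* T) h1
    simp only [Matrix.vecMul_add, Matrix.vecMul_one] at h3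
    rw [h2, zero_add] at h3
    exact h3

end base

section quotient

variable {Q : Type} [Group Q] (K : Subgroup Q)

lemma prod_alg {V : Type} [AddCommGroup V] [Module ℚ V] [Module (MonoidAlgebra ℚ Q) V]
    [IsScalarTower ℚ (MonoidAlgebra ℚ Q) V] (l : List K) (x : V) :
    (l.map fun g => ((lm V : Representation ℚ Q V).comp K.subtype) g - 1).prod x =
      (l.map fun g : K => (single (g : Q) (1 : ℚ) - 1 : MonoidAlgebra ℚ Q)).prod • x := by
  induction l generalizing x with
  | nil => exact (one_smul _ x).symm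
  | cons g l ih =>
    rw [List.map_cons, List.prod_cons, List.map_cons, List.prod_cons, Module.End.mul_apply, ih,
      mul_smul, sub_smul, one_smul]
    rfl

section abstract

variable {S : Type} [Ring S] (κ : MonoidAlgebra ℚ Q →+* S) (κ' : MonoidAlgebra ℚ K →+* S)
  (hκ' : ∀ (γ : K) (c : ℚ), κ' (single γ c) = κ (single (γ : Q) c))
  {M : Type} [AddCommGroup M] [Module ℚ M] [Module S M]
  (hκ : ∀ (c : ℚ) (m : M), κ (algebraMap ℚ (MonoidAlgebra ℚ Q) c) • m = c • m)

include hκ' hκ in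
lemma hκK (c : ℚ) (m : M) : κ' (algebraMap ℚ (MonoidAlgebra ℚ K) c) • m = c • m := by
  rw [← hκ, Algebra.algebraMap_eq_smul_one, Algebra.algebraMap_eq_smul_one, MonoidAlgebra.one_def,
    MonoidAlgebra.one_def, smul_single, smul_single, hκ']
  rfl

lemma rep_eq : (repM κ hκ).comp K.subtype = repM κ' (hκK K κ κ' hκ' hκ) := by
  refine MonoidHom.ext fun g => LinearMap.ext fun m => ?_
  rw [repM_apply, hκ']
  rfl

include hκ' in
lemma semiK {V : Type} [AddCommGroup V] [Module ℚ V] [Module (MonoidAlgebra ℚ Q) V]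
    [IsScalarTower ℚ (MonoidAlgebra ℚ Q) V] (f : V →ₗ[ℚ] M)
    (hf : Eqv (K : Set Q) (lm V) (repM κ hκ) f) (a : MonoidAlgebra ℚ K) (x : V) :
    f (inclQ K a • x) = κ' a • f x := by
  refine induction_linear a ?_ ?_ ?_
  · rw [map_zero, map_zero, zero_smul, zero_smul, map_zero]
  · intro y z hy hz
    rw [map_add, map_add, add_smul, add_smul, map_add, hy, hz]
  · intro g c
    have h1 : (single g c : MonoidAlgebra ℚ K) = algebraMap ℚ _ c * single g 1 := by
      rw [← Algebra.smul_def, smul_single, smul_eq_mul, mul_one]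
    have h2 : f ((single (g : Q) (1 : ℚ) : MonoidAlgebra ℚ Q) • x) =
        κ (single (g : Q) 1) • f x := hf g g.2 x
    rw [inclQ_single, smul_assoc, map_smul, h2, h1, map_mul, mul_smul,
      hκK K κ κ' hκ' hκ, hκ']

end abstract

variable (θ : RedC K →+* RedC Q)
  (hθ : ∀ (γ : K) (c : ℂ), θ (toC (single γ c)) = toC (single (γ : Q) c))

include hθ in
lemma kapK_single (γ : K) (c : ℚ) : (θ.comp (kap K)) (single γ c) = kap Q (single (γ : Q) c) := by
  rw [RingHom.comp_apply, kap_single, hθ, kap_single]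

lemma exAt_sub (W : FinRes K) (m : ℕ) (hW : ∀ p < m, Subsingleton (W.homology (toRed K) p))
    (p : ℕ) (hp : p < m) : ExAt W ((θ.comp (kap K)).comp (rat K)) p := by
  have h1 : (θ.comp (kap K)).comp (rat K) = θ.comp (toRed K) := by
    refine RingHom.ext fun a => ?_
    exact congrArg θ (toC_cpx a)
  rw [h1]
  exact exAt_map W θ (toRed K) p fun i hi => (exAt_iff W _ i).2 (hW i (by omega))

variable {M : Type} [AddCommGroup M] [Module ℚ M] [Module (RedC Q) M]
  (hκ : ∀ (c : ℚ) (m : M), kap Q (algebraMap ℚ (MonoidAlgebra ℚ Q) c) • m = c • m)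

include hθ in
/-- a vector with a big annihilator is mapped to zero -/
lemma top_van {V : Type} [AddCommGroup V] [Module ℚ V] [Module (MonoidAlgebra ℚ Q) V]
    [IsScalarTower ℚ (MonoidAlgebra ℚ Q) V] (φ : V →ₗ[ℚ] M)
    (hφ : Eqv (K : Set Q) (lm V) (repM (kap Q) hκ) φ) (z : V)
    (hna : (1 : RedC K) ∈ Submodule.span (RedC K)
      (Set.range fun g : K => (1 : RedC K) - toC (single g 1)))
    (hcof : Cof {a : MonoidAlgebra ℚ K | φ (inclQ K a • z) = 0}) : φ z = 0 := by
  have hsp := span_of_cof hna hcof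
  have h3 : ∀ u ∈ Submodule.span (RedC K) ((fun a => toC (cpx K a)) ''
      {a : MonoidAlgebra ℚ K | φ (inclQ K a • z) = 0}), θ u • φ z = 0 := by
    intro u hu
    induction hu using Submodule.span_induction with
    | mem x hx =>
      obtain ⟨a, ha, rfl⟩ := hx
      have h4 := semiK K (kap Q) (θ.comp (kap K)) (kapK_single K θ hθ) hκ φ hφ a z
      rw [show φ (inclQ K a • z) = 0 from ha] at h4
      exact h4.symm
    | zero => rw [map_zero, zero_smul]
    | add x y _ _ hx hy => rw [map_add, add_smul, hx, hy, add_zero]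
    | smul c x _ hx =>
      have h5 : θ (c • x) • φ z = θ c • θ x • φ z := by
        rw [smul_smul, smul_eq_mul, map_mul]
      rw [h5, hx, smul_zero]
  have h5 := h3 1 hsp
  rwa [map_one, one_smul] at h5

end quotient

section core

variable {Q : Type} [Group Q] {D : ℕ → Type} [∀ n, AddCommGroup (D n)] [∀ n, Module ℚ (D n)]
  (σ : ∀ n, Representation ℚ Q (D n)) (d : ∀ n, D (n + 1) →ₗ[ℚ] D n)
  {M : Type} [AddCommGroup M] [Module ℚ M] (ρ : Representation ℚ Q M)

lemma nil_zero {K : Type} [Group K] (τ : ∀ n, Representation ℚ K (D n)) (s : ℕ)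
    (h : ∀ z, Cyc d s z → ∃ y, d s y = z) : Nil τ d s 0 := by
  intro l hl z hz
  obtain rfl := List.length_eq_zero_iff.1 hl
  exact h z hz

theorem core (hNE : NilExact)
    (hσ : ∀ n g x, d n (σ (n + 1) g x) = σ n g (d n x)) (hdd : ∀ n x, d n (d (n + 1) x) = 0)
    (hP : ∀ (H : Type) [Group H] (j : H →* Q), Function.Injective j → ∀ n, Proj ((σ n).comp j))
    (h0 : ∀ x : D 0, ∃ y, d 0 y = x) (h1 : ∀ x : D 1, d 0 x = 0 → ∃ y, d 1 y = x)
    (K : Subgroup Q) [K.Normal] (W : FinRes K) (r : ℕ)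
    (hWM : ∀ p < r, CoEx (fun n => lm (Fin (W.n n) → MonoidAlgebra ℚ K)) (eW W)
      (ρ.comp K.subtype) Set.univ p)
    (hnil : ∀ t, t + 1 < r → ∃ c, Nil (fun n => (σ n).comp K.subtype) d (t + 2) c)
    (htop : 1 ≤ r → (∃ c, Nil (fun n => (σ n).comp K.subtype) d (r + 1) c) ∨
      ∀ φ : D (r + 1) →ₗ[ℚ] M, Eqv (K : Set Q) (σ (r + 1)) ρ φ → φ ∘ₗ d (r + 1) = 0 →
        ∀ z, d r z = 0 → φ z = 0) : CoEx σ d ρ Set.univ (r + 1) := by
  have hinv : 1 ≤ r → ∀ m : M, (∀ g : K, (ρ.comp K.subtype) g m = m) → m = 0 := by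
    intro hr m hm
    have h1 := hWM 0 hr ((LinearMap.toSpanSingleton ℚ M m) ∘ₗ epsW W) (by
      intro g _ x
      rw [LinearMap.comp_apply, LinearMap.comp_apply, epsW_eqv, LinearMap.toSpanSingleton_apply,
        map_smul, hm g]) (by
      refine LinearMap.ext fun x => ?_
      rw [LinearMap.comp_apply, LinearMap.comp_apply, (epsW_exact W _).2 ⟨x, rfl⟩, map_zero]
      rfl)
    obtain ⟨x, hx⟩ := epsW_surj W
    have h2 := LinearMap.congr_fun h1 x
    rw [LinearMap.comp_apply, hx, LinearMap.toSpanSingleton_apply, one_smul,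
      LinearMap.zero_apply] at h2
    exact h2
  have hnilcase : 1 ≤ r → ∀ t c, Nil (fun n => (σ n).comp K.subtype) d (t + 1) c →
      ∀ φ : D (t + 1) →ₗ[ℚ] M,
      Eqv Set.univ ((σ (t + 1)).comp K.subtype) (ρ.comp K.subtype) φ → φ ∘ₗ d (t + 1) = 0 →
      ∀ z, d t z = 0 → φ z = 0 := by
    intro hr t c hc φ hφ hφd z hz
    refine unip _ (hinv hr) c (φ z) fun l hl => ?_
    rw [← prod_comm ((σ (t + 1)).comp K.subtype) _ φ (fun g x => hφ g (Set.mem_univ g) x)]
    obtain ⟨y, hy⟩ := hc l hl z hz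
    rw [← hy]
    exact LinearMap.congr_fun hφd y
  have hall : ∀ t ≤ r + 1, CoEx σ d ρ (K : Set Q) t := by
    intro t ht
    rw [← coEx_top]
    refine hNE K _ (fun n => Fin (W.n n) → MonoidAlgebra ℚ K) _ _
      (fun n => lm (Fin (W.n n) → MonoidAlgebra ℚ K)) (eW W) (epsW W) D _ _
      (fun n => (σ n).comp K.subtype) d M _ _ (ρ.comp K.subtype) r t
      (eW_eqv W) (epsW_eqv W) (epsW_surj W) (epsW_exact W) (eW_exact W)
      (fun n => proj_free _ K (MonoidHom.id K) Function.injective_id) hWM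
      (fun n g x => hσ n g x) hdd (fun n => hP K K.subtype Subtype.val_injective n) ?_ ?_
    · intro s hs
      match s, hs with
      | 0, _ => exact ⟨0, nil_zero d _ 0 fun z _ => h0 z, Or.inl rfl⟩
      | 1, _ => exact ⟨0, nil_zero d _ 1 fun z hz => h1 z hz, Or.inl rfl⟩
      | s + 2, hs =>
        obtain ⟨c, hc⟩ := hnil s (by omega)
        exact ⟨c, hc, Or.inr (by omega)⟩
    · intro φ hφ hφd z hz
      have hφ0 : ∀ y, φ (d t y) = 0 := fun y => LinearMap.congr_fun hφd y
      match t, ht, φ, hφ, hφd, hφ0, z, hz with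
      | 0, _, φ, _, _, hφ0, z, _ =>
        obtain ⟨y, rfl⟩ := h0 z
        exact hφ0 y
      | 1, _, φ, _, _, hφ0, z, hz =>
        obtain ⟨y, rfl⟩ := h1 z hz
        exact hφ0 y
      | t + 2, ht, φ, hφ, hφd, hφ0, z, hz =>
        rcases Nat.lt_or_ge (t + 1) r with htr | htr
        · obtain ⟨c, hc⟩ := hnil t htr
          exact hnilcase (by omega) (t + 1) c hc φ hφ hφd z hz
        · obtain rfl : t + 1 = r := by omega
          rcases htop (by omega) with ⟨c, hc⟩ | h
          · exact hnilcase (by omega) (t + 1) c hc φ hφ hφd z hz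
          · exact h φ (fun g hg x => hφ ⟨g, hg⟩ (Set.mem_univ _) x) hφd z hz
  intro φ hφ hφd
  exact descent σ d K hσ hdd (fun n => hP Q (MonoidHom.id Q) Function.injective_id n) (r + 1) M ρ
    (fun t ht => hall t (by omega)) φ hφ hφd
    (hall (r + 1) le_rfl φ (fun g _ x => hφ g (Set.mem_univ g) x) hφd)

end core

variable {G : Type} [Group G] (N : Subgroup G) [N.Normal]

/-- The subgroup `K` of `G/N` acts nilpotently, of class `c`, on the homology
`H_q(N; ℚ) = H_q(ℚ[G/N] ⊗_{ℤ[G]} X)`: all products of `c` elements `g - 1`, `g ∈ K`, map the cycles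
to boundaries. -/
def NilHom (X : FinRes G) (K : Subgroup (G ⧸ N)) (q c : ℕ) : Prop :=
  ∀ l : List K, l.length = c → ∀ z ∈ X.cyc (toRat N) q,
    (l.map fun g : K => (single (g : G ⧸ N) (1 : ℚ) - 1 : MonoidAlgebra ℚ (G ⧸ N))).prod • z ∈
      LinearMap.range (X.del (toRat N) q)

theorem main (hNE : NilExact) (hN : IsAmenable N) (X : FinRes G) (Y : FinRes (G ⧸ N))
    (K : Subgroup (G ⧸ N)) [K.Normal] (W : FinRes K) (r : ℕ)
    (hW : ∀ p < r, Subsingleton (W.homology (toRed K) p))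
    (hnil : ∀ q, 1 ≤ q → q < r → ∃ c, NilHom N X K q c)
    (htop : 1 ≤ r → FinDim X (toRat N) r ∨ ∃ c, NilHom N X K r c)
    (hX : ∀ j ≤ r + 1, Subsingleton (X.homology (toRed G) j)) :
    ExAt Y (toRed (G ⧸ N)) (r + 1) := by
  set Q := G ⧸ N with hQ'
  let f : G →* Q := QuotientGroup.mk' N
  have hf : Function.Surjective f := QuotientGroup.mk'_surjective N
  obtain ⟨E, hE0, hE⟩ := fwd X Y (gmap f) (augm_gmap f)
  let dY : ∀ n, Matrix (Fin (Y.n (n + 1))) (Fin (Y.n n)) (MonoidAlgebra ℚ Q) :=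
    fun n => (Y.d n).map (rat Q)
  let F : ∀ n, Matrix (Fin (cs X (n + 1))) (Fin (Y.n n)) (MonoidAlgebra ℚ Q) :=
    fun n => (E n).map (rat Q)
  have hY2 : ∀ n, dY (n + 1) * dY n = 0 := by
    intro n
    change (Y.d (n + 1)).map (rat Q) * (Y.d n).map (rat Q) = 0
    rw [← Matrix.map_mul, d_mul_d]
    ext; simp
  have hC2 : ∀ n, ds X f (n + 1) * ds X f n = 0 := by
    intro n
    cases n with
    | zero => exact Matrix.ext fun i j => Fin.elim0 j
    | succ n =>
      change (X.d (n + 1)).map ((rat Q).comp (gmap f)) * (X.d n).map ((rat Q).comp (gmap f)) = 0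
      rw [← Matrix.map_mul, d_mul_d]
      ext; simp
  have hF2 : ∀ n, ds X f (n + 1) * F n = F (n + 1) * dY n := by
    intro n
    change ((X.d n).map (gmap f)).map (rat Q) * (E n).map (rat Q) =
      (E (n + 1)).map (rat Q) * (Y.d n).map (rat Q)
    rw [← Matrix.map_mul, ← Matrix.map_mul, hE]
  have hYe : ∀ n (z : Fin (Y.n (n + 1)) → MonoidAlgebra ℚ Q), z ᵥ* dY n = 0 →
      ∃ w, w ᵥ* dY (n + 1) = z := rat_exact Y
  -- degree zero and one
  have h0 : ∀ x : DD ℚ Q Y.n (cs X) 0, ∃ y, dD dY (ds X f) F 0 y = x := by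
    rintro ⟨y, c⟩
    obtain ⟨y', c', h⟩ := cone_s0 hE0 y
    refine ⟨(y', c'), Prod.ext h ?_⟩
    exact funext fun j => Fin.elim0 j
  have hk1 : ∀ (x : DD ℚ Q Y.n (cs X) 1), dD dY (ds X f) F 0 x = 0 →
      ∃ y, dD dY (ds X f) F 1 y = x := by
    intro x hx
    obtain ⟨y, hy⟩ := cone_kill dY (ds X f) F hF2 hYe 0 1 (fun y c _ h => by
      obtain ⟨c', hc'⟩ := cone_s1 hf hE0 y c h
      exact ⟨c', by rw [one_smul]; exact hc'⟩) x hx
    exact ⟨y, by rw [hy, one_smul]⟩
  -- the homology in higher degrees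
  have hk2 : ∀ (t : ℕ) (a : MonoidAlgebra ℚ Q), (∀ z ∈ X.cyc (toRat N) (t + 1),
      a • z ∈ LinearMap.range (X.del (toRat N) (t + 1))) →
      ∀ x : DD ℚ Q Y.n (cs X) (t + 2), dD dY (ds X f) F (t + 1) x = 0 →
      ∃ y, dD dY (ds X f) F (t + 2) y = a • x := by
    intro t a ha x hx
    refine cone_kill dY (ds X f) F hF2 hYe (t + 1) a (fun y c hc _ => ?_) x hx
    obtain ⟨c', hc'⟩ := ha c hc
    exact ⟨c', hc'⟩
  -- the contraction
  have hXi := coeff N hN X (r + 1) (fun j hj => (exAt_iff X _ j).2 (hX j hj))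
  obtain ⟨s, -, hs⟩ := contraction' X (toQuot N) (r + 1) hXi
  have hmapY : ∀ n, (dY n).map (kap Q) = (Y.d n).map (toRed Q) := by
    intro n
    refine Matrix.ext fun i j => ?_
    exact toC_cpx _
  have hmapX : ∀ n, (ds X f (n + 1)).map (kap Q) = (X.d n).map (toQuot N) := by
    intro n
    refine Matrix.ext fun i j => ?_
    exact toC_cpx _
  obtain ⟨θ, hθ, -⟩ := t_subRed Q _ K
  intro x hx
  rw [← hmapY]
  refine cone_final (kap Q) dY (ds X f) F hF2 r (s r) (s (r + 1)) ?_ ?_ x (by rw [hmapY]; exact hx)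
  · rw [hmapX, hmapX]
    exact hs r le_rfl
  intro M _ _ _ hκ
  have hWM : ∀ p < r, CoEx (fun n => lm (Fin (W.n n) → MonoidAlgebra ℚ K)) (eW W)
      ((repM (kap Q) hκ).comp K.subtype) Set.univ p := by
    rw [rep_eq K (kap Q) (θ.comp (kap K)) (kapK_single K θ hθ) hκ]
    exact fun p hp => coEx_W W (θ.comp (kap K))
      (hκK K (kap Q) (θ.comp (kap K)) (kapK_single K θ hθ) hκ) r (exAt_sub K θ W r hW) p hp
  have hnilD : ∀ t c, NilHom N X K (t + 1) c →
      Nil (fun n => (lm (DD ℚ Q Y.n (cs X) n) : Representation ℚ Q _).comp K.subtype)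
        (dD dY (ds X f) F) (t + 2) c := by
    intro t c h l hl z hz
    obtain ⟨y, hy⟩ := hk2 t _ (h l hl) z hz
    exact ⟨y, hy.trans (prod_alg K l z).symm⟩
  refine core (fun n => lm (DD ℚ Q Y.n (cs X) n)) (dD dY (ds X f) F) (repM (kap Q) hκ) hNE
    (fun n g x => dD_eqv _ _ _ n g x) (fun n x => dD_dD _ _ _ hY2 hC2 hF2 n x)
    (fun H _ j hj n => proj_prod H j (proj_free _ H j hj) (proj_free _ H j hj)) h0 hk1
    K W r hWM (fun t ht => ?_) (fun hr => ?_)
  · obtain ⟨c, hc⟩ := hnil (t + 1) (by omega) ht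
    exact ⟨c, hnilD t c hc⟩
  · obtain ⟨t, rfl⟩ : ∃ t, r = t + 1 := ⟨r - 1, by omega⟩
    rcases htop hr with h | ⟨c, hc⟩
    · right
      intro φ hφ hφd z hz
      have hna : (1 : RedC K) ∈ Submodule.span (RedC K)
          (Set.range fun g : K => (1 : RedC K) - toC (single g 1)) := by
        have h1 := nonamen W (toRed K) ((exAt_iff W _ 0).2 (hW 0 (by omega)))
        have h2 : ∀ g : K, toRed K (single g 1) = toC (single g 1) := by
          intro g
          rw [← toC_cpx, rat_single, cpx_single]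
          norm_num
        simp only [h2] at h1
        exact h1
      refine top_van K θ hθ hκ φ hφ z hna
        (((cof_of_finDim X (toRat N) (t + 1) h).comap (inclQ K).toLinearMap).mono ?_)
      intro a ha
      obtain ⟨y, hy⟩ := hk2 t (inclQ K a) ha z hz
      change φ (inclQ K a • z) = 0
      rw [← hy]
      exact LinearMap.congr_fun hφd y
    · left
      exact ⟨c, hnilD t c hc⟩

theorem conclusion (hNE : NilExact) (hN : IsAmenable N) (K : Subgroup (G ⧸ N)) [K.Normal]
    (W : FinRes K) (i : ℕ) (hi : 2 ≤ i) (hW : ∀ p, p + 1 < i → Subsingleton (W.homology (toRed K) p))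
    (Y : FinRes (G ⧸ N)) (hY : GoodBase Y i) (X : FinRes G)
    (hnil : ∀ q, 1 ≤ q → q + 1 < i → ∃ c, NilHom N X K q c) (hfin : FinDim X (toRat N) (i - 1)) :
    ∃ j ≤ i, Nontrivial (X.homology (toRed G) j) := by
  obtain ⟨k, hk, hk'⟩ := hY.exists_le hi
  rcases Nat.lt_or_ge k 1 with h1 | h1
  · obtain ⟨j, hj, hj'⟩ := extension N hN X Y k hk' (Or.inr fun q h2 h3 => by omega)
    exact ⟨j, hj.trans hk, hj'⟩
  obtain ⟨r, rfl⟩ : ∃ r, k = r + 1 := ⟨k - 1, by omega⟩
  by_contra hcon
  push Not at hcon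
  have h2 := main N hNE hN X Y K W r (fun p hp => hW p (by omega))
    (fun q hq hq' => hnil q hq (by omega)) (fun hr => by
      rcases Nat.lt_or_ge (r + 1) i with h | h
      · exact Or.inr (hnil r hr h)
      · obtain rfl : r + 1 = i := by omega
        exact Or.inl hfin) (fun j hj => hcon j (hj.trans hk))
  exact not_nontrivial_iff_subsingleton.2 ((exAt_iff Y _ _).1 h2) hk'

end

end Pool.Agent.Helper6K1.ZR
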