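import Pool.Agent.Helper6K1.ZP.Concl2
import Pool.Agent.Helper6K1.ZR.Stm

/-!
The rational resolution of a group, and its cochains with values in a module over the reduced group
C*-algebra.
-/

set_option autoImplicit false
set_option linter.unusedSectionVars false

open scoped Matrix

namespace Pool.Agent.Helper6K1.ZR

open Pool.Agent.H919R4.ZS MonoidAlgebra Pool.Agent.TH38.ZT Pool.Agent.R807.ZK
open Pool.Agent.Helper6K1.ZM Pool.Agent.Helper6K1.ZP
open Pool.Agent.H496R3.ZS (IsAmenable)

noncomputable section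

variable {K : Type} [Group K] (W : FinRes K)

/-- the differentials of the rational resolution -/
def eW (n : ℕ) : (Fin (W.n (n + 1)) → MonoidAlgebra ℚ K) →ₗ[ℚ]
    (Fin (W.n n) → MonoidAlgebra ℚ K) where
  toFun x := x ᵥ* (W.d n).map (rat K)
  map_add' x y := Matrix.add_vecMul _ _ _
  map_smul' c x := Matrix.smul_vecMul _ _ _

lemma eW_apply (n : ℕ) (x : Fin (W.n (n + 1)) → MonoidAlgebra ℚ K) :
    eW W n x = x ᵥ* (W.d n).map (rat K) := rfl

variable (K) in
/-- the rational augmentation -/
def augq : MonoidAlgebra ℚ K →ₐ[ℚ] ℚ := MonoidAlgebra.lift ℚ ℚ K 1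

lemma augq_single (g : K) (c : ℚ) : augq K (single g c) = c := by
  rw [augq, MonoidAlgebra.lift_single]
  simp

lemma augq_rat (a : MonoidAlgebra ℤ K) : augq K (rat K a) = (augm K a : ℚ) := by
  have h : ((augq K : MonoidAlgebra ℚ K →+* ℚ).comp (rat K) : MonoidAlgebra ℤ K →+* ℚ) =
      (Int.castRingHom ℚ).comp (augm K) := by
    refine hom_ext_single fun g => ?_
    rw [RingHom.comp_apply, RingHom.comp_apply, rat_single, augm_single]
    change augq K (single g _) = _
    rw [augq_single]
    rfl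
  exact DFunLike.congr_fun h a

/-- the augmentation of the rational resolution -/
def epsW : (Fin (W.n 0) → MonoidAlgebra ℚ K) →ₗ[ℚ] ℚ where
  toFun x := ∑ j, augq K (x j) * (W.aug j : ℚ)
  map_add' x y := by
    rw [← Finset.sum_add_distrib]
    refine Finset.sum_congr rfl fun j _ => ?_
    rw [Pi.add_apply, map_add, add_mul]
  map_smul' c x := by
    rw [RingHom.id_apply, Finset.smul_sum]
    refine Finset.sum_congr rfl fun j _ => ?_
    rw [Pi.smul_apply, map_smul, smul_eq_mul, smul_eq_mul, mul_assoc]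

lemma epsW_apply (x : Fin (W.n 0) → MonoidAlgebra ℚ K) :
    epsW W x = ∑ j, augq K (x j) * (W.aug j : ℚ) := rfl

lemma eW_eqv (n : ℕ) (g : K) (x : Fin (W.n (n + 1)) → MonoidAlgebra ℚ K) :
    eW W n ((lm _ : Representation ℚ K _) g x) = (lm _ : Representation ℚ K _) g (eW W n x) := by
  rw [lm_apply, lm_apply, eW_apply, eW_apply, Matrix.smul_vecMul]

lemma epsW_eqv (g : K) (x : Fin (W.n 0) → MonoidAlgebra ℚ K) :
    epsW W ((lm _ : Representation ℚ K _) g x) = epsW W x := by
  rw [lm_apply, epsW_apply, epsW_apply]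
  refine Finset.sum_congr rfl fun j _ => ?_
  rw [Pi.smul_apply, smul_eq_mul, map_mul, augq_single, one_mul]

lemma epsW_rat (x : Fin (W.n 0) → MonoidAlgebra ℤ K) :
    epsW W (fun j => rat K (x j)) = ((∑ j, augm K (x j) * W.aug j : ℤ) : ℚ) := by
  rw [epsW_apply]
  push_cast
  refine Finset.sum_congr rfl fun j _ => ?_
  rw [augq_rat]

lemma epsW_surj : ∃ x, epsW W x = 1 := by
  obtain ⟨x, hx⟩ := W.surj
  refine ⟨fun j => rat K (x j), ?_⟩
  rw [epsW_rat, hx, Int.cast_one]

lemma epsW_exact (x : Fin (W.n 0) → MonoidAlgebra ℚ K) :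
    epsW W x = 0 ↔ ∃ y, eW W 0 y = x := by
  constructor
  · intro hx
    obtain ⟨c, hc, x', hx'⟩ := clear x
    have h1 : (fun k => rat K (x' k)) = c • x := funext hx'
    have h2 : ∑ j, augm K (x' j) * W.aug j = 0 := by
      have h3 := epsW_rat W x'
      rw [h1, map_zsmul, hx, smul_zero] at h3
      exact_mod_cast h3.symm
    obtain ⟨y, hy⟩ := (W.exact_zero x').1 h2
    refine ⟨((c : ℚ)⁻¹) • fun k => rat K (y k), ?_⟩
    rw [map_smul, eW_apply, ← rat_vec, hy, h1, inv_smul_zsmul hc]
  · rintro ⟨y, rfl⟩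
    obtain ⟨c, hc, y', hy'⟩ := clear y
    have h1 : (fun k => rat K (y' k)) = c • y := funext hy'
    have h2 : c • epsW W (eW W 0 y) = 0 := by
      rw [← map_zsmul, ← map_zsmul, ← h1, eW_apply, ← rat_vec, epsW_rat,
        (W.exact_zero (y' ᵥ* W.d 0)).2 ⟨y', rfl⟩, Int.cast_zero]
    rw [zsmul_eq_mul] at h2
    rcases mul_eq_zero.1 h2 with h3 | h3
    · exact absurd (by exact_mod_cast h3) hc
    · exact h3

lemma eW_exact (n : ℕ) (x : Fin (W.n (n + 1)) → MonoidAlgebra ℚ K) :
    eW W n x = 0 ↔ ∃ y, eW W (n + 1) y = x := by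
  constructor
  · intro hx
    obtain ⟨w, hw⟩ := rat_exact W n x hx
    exact ⟨w, hw⟩
  · rintro ⟨y, rfl⟩
    rw [eW_apply, eW_apply, Matrix.vecMul_vecMul, ← Matrix.map_mul, d_mul_d]
    have : (0 : Matrix (Fin (W.n (n + 1 + 1))) (Fin (W.n n)) (MonoidAlgebra ℤ K)).map (rat K) =
        0 := by ext; simp
    rw [this, Matrix.vecMul_zero]

section coefficients

variable {S : Type} [Ring S] (κ : MonoidAlgebra ℚ K →+* S)
  {M : Type} [AddCommGroup M] [Module ℚ M] [Module S M]
  (hκ : ∀ (c : ℚ) (m : M), κ (algebraMap ℚ (MonoidAlgebra ℚ K) c) • m = c • m)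

/-- matrices act on vectors with entries in a module -/
lemma mat_smul {a b c : ℕ} (A : Matrix (Fin a) (Fin b) S) (B : Matrix (Fin b) (Fin c) S)
    (v : Fin c → M) (i : Fin a) :
    ∑ l, (A * B) i l • v l = ∑ j, A i j • ∑ l, B j l • v l := by
  simp only [Matrix.mul_apply, Finset.sum_smul, Finset.smul_sum, smul_smul]
  exact Finset.sum_comm

lemma one_smul_vec {a : ℕ} (v : Fin a → M) (i : Fin a) :
    ∑ l, (1 : Matrix (Fin a) (Fin a) S) i l • v l = v i := by
  rw [Finset.sum_eq_single i]
  · rw [Matrix.one_apply_eq, one_smul]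
  · intro l _ hl
    rw [Matrix.one_apply_ne hl.symm, zero_smul]
  · intro h
    exact absurd (Finset.mem_univ i) h

/-- an equivariant map on a free module is determined by its values on the basis -/
lemma val {a : ℕ} (f : (Fin a → MonoidAlgebra ℚ K) →ₗ[ℚ] M)
    (hf : Eqv Set.univ (lm _) (repM κ hκ) f) (x : Fin a → MonoidAlgebra ℚ K) :
    f x = ∑ j, κ (x j) • f (Pi.single j 1) := by
  have h1 : x = ∑ j, x j • (Pi.single j 1 : Fin a → MonoidAlgebra ℚ K) := by
    funext i
    rw [Finset.sum_apply, Finset.sum_eq_single i]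
    · change x i = x i * (Pi.single i 1 : Fin a → MonoidAlgebra ℚ K) i
      rw [Pi.single_eq_same, mul_one]
    · intro l _ hl
      change x l * (Pi.single l 1 : Fin a → MonoidAlgebra ℚ K) i = 0
      rw [Pi.single_eq_of_ne hl.symm, mul_zero]
    · intro h
      exact absurd (Finset.mem_univ i) h
  conv_lhs => rw [h1]
  rw [map_sum]
  exact Finset.sum_congr rfl fun j _ => semilin κ hκ f hf _ _

/-- the equivariant map with given values on the basis -/
def mk {a : ℕ} (v : Fin a → M) : (Fin a → MonoidAlgebra ℚ K) →ₗ[ℚ] M where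
  toFun x := ∑ j, κ (x j) • v j
  map_add' x y := by
    rw [← Finset.sum_add_distrib]
    refine Finset.sum_congr rfl fun j _ => ?_
    rw [Pi.add_apply, map_add, add_smul]
  map_smul' c x := by
    rw [RingHom.id_apply, Finset.smul_sum]
    refine Finset.sum_congr rfl fun j _ => ?_
    rw [Pi.smul_apply, ← hκ, smul_smul, ← map_mul, ← Algebra.smul_def]

lemma mk_apply {a : ℕ} (v : Fin a → M) (x : Fin a → MonoidAlgebra ℚ K) :
    mk κ hκ v x = ∑ j, κ (x j) • v j := rfl

lemma mk_eqv {a : ℕ} (v : Fin a → M) : Eqv Set.univ (lm _) (repM κ hκ) (mk κ hκ v) := by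
  intro g _ x
  rw [lm_apply, repM_apply, mk_apply, mk_apply, Finset.smul_sum]
  refine Finset.sum_congr rfl fun j _ => ?_
  rw [Pi.smul_apply, smul_eq_mul, map_mul, smul_smul]

/-- exactness of the cochains from a contraction -/
theorem coEx_W (m : ℕ) (hW : ∀ p < m, ExAt W (κ.comp (rat K)) p) (p : ℕ) (hp : p < m) :
    CoEx (fun n => lm (Fin (W.n n) → MonoidAlgebra ℚ K)) (eW W) (repM κ hκ) Set.univ p := by
  obtain ⟨s, hs0, hs⟩ := contraction' W (κ.comp (rat K)) p (fun i hi => hW i (by omega))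
  intro f hf hfd
  have hval := val κ hκ f hf
  set v : Fin (W.n p) → M := fun j => f (Pi.single j 1) with hv
  have h0 : ∀ i, ∑ l, ((W.d p).map (κ.comp (rat K))) i l • v l = 0 := by
    intro i
    have h1 := LinearMap.congr_fun hfd (Pi.single i 1)
    rw [LinearMap.comp_apply, eW_apply, Matrix.single_one_vecMul, hval] at h1
    exact h1
  cases p with
  | zero =>
    refine LinearMap.ext fun x => ?_
    rw [hval, LinearMap.zero_apply]
    refine Finset.sum_eq_zero fun j _ => ?_
    have h1 : v j = 0 := by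
      rw [← one_smul_vec (S := S) v j, ← hs0, mat_smul]
      refine Finset.sum_eq_zero fun i _ => ?_
      rw [h0, smul_zero]
    change κ (x j) • v j = 0
    rw [h1, smul_zero]
  | succ p =>
    refine ⟨mk κ hκ fun l => ∑ j, s p l j • v j, mk_eqv κ hκ _, LinearMap.ext fun x => ?_⟩
    have key : ∀ i, ∑ l, ((W.d p).map (κ.comp (rat K))) i l • ∑ j, s p l j • v j = v i := by
      intro i
      have h1 : ∑ l, ((W.d p).map (κ.comp (rat K)) * s p) i l • v l +
          ∑ l, (s (p + 1) * (W.d (p + 1)).map (κ.comp (rat K))) i l • v l = v i := by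
        rw [← Finset.sum_add_distrib]
        have h2 : ∀ l, ((W.d p).map (κ.comp (rat K)) * s p) i l • v l +
            (s (p + 1) * (W.d (p + 1)).map (κ.comp (rat K))) i l • v l =
            (1 : Matrix (Fin (W.n (p + 1))) (Fin (W.n (p + 1))) S) i l • v l := by
          intro l
          rw [← add_smul, ← Matrix.add_apply, hs p le_rfl]
        rw [Finset.sum_congr rfl fun l _ => h2 l]
        exact one_smul_vec v i
      rw [← mat_smul]
      rw [mat_smul (s (p + 1))] at h1
      rw [← h1]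
      refine (add_eq_left.2 ?_).symm
      refine Finset.sum_eq_zero fun j _ => ?_
      rw [h0, smul_zero]
    rw [LinearMap.comp_apply, mk_apply, hval]
    have h3 : ∀ l, κ (eW W p x l) = ∑ i, κ (x i) * ((W.d p).map (κ.comp (rat K))) i l := by
      intro l
      rw [eW_apply]
      change κ (∑ i, x i * ((W.d p).map (rat K)) i l) = _
      rw [map_sum]
      refine Finset.sum_congr rfl fun i _ => ?_
      rw [map_mul]
      rfl
    simp only [h3, Finset.sum_smul]
    rw [Finset.sum_comm]
    refine Finset.sum_congr rfl fun i _ => ?_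
    change _ = κ (x i) • v i
    rw [← key i, Finset.smul_sum]
    exact Finset.sum_congr rfl fun l _ => mul_smul _ _ _

end coefficients

end

end Pool.Agent.Helper6K1.ZR
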